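import Mathlib

set_option autoImplicit false

namespace Pool.Agent.H.MP_bcc032_al

open Polynomial

section Abs
variable {A R : Type} [CommRing A] [Ring R]

/-- the product of the first `n` translates -/
def cc (σ : A →+* A) (x : A) : ℕ → A
  | 0 => 1
  | n + 1 => cc σ x n * (σ ^ n) x

/-- the second generator in degree `n` -/
def VV (ι : A →+* R) (y : A) (u v : R) (α β : ℕ → A) : ℕ → R
  | 0 => ι y
  | n + 1 => ι (α n) * (u ^ n * v) + ι (β n) * (VV ι y u v α β n * u)

structure Data (A R : Type) [CommRing A] [Ring R] where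
  p : ℕ
  ι : A →+* R
  σ : A →+* A
  x : A
  y : A
  u : R
  v : R
  α : ℕ → A
  β : ℕ → A
  φ : R → A[X] → A[X]
  φmul : ∀ a b w, φ (a * b) w = φ a (φ b w)
  φadd : ∀ a b w, φ (a + b) w = φ a w + φ b w
  φzero : ∀ w, φ 0 w = 0
  φone : ∀ w, φ 1 w = w
  σ_inj : Function.Injective σ
  σy : σ y = y
  hu : ∀ a, u * ι a = ι (σ a) * u
  hv : ∀ a, v * ι a = ι (σ a) * v
  rel : ι y * u = ι x * v
  cop : ∀ n < p, α n * cc σ x n + β n * (σ ^ n) x = 1
  syz : ∀ n ≤ p, ∀ a b, a * cc σ x n + b * y = 0 → ∃ e, a = e * y ∧ b = -(e * cc σ x n)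
  φι : ∀ a w, φ (ι a) w = C a * w
  φu : ∀ w, φ u w = C x * X * w.map σ
  φv : ∀ w, φ v w = C y * X * w.map σ

namespace Data
variable (D : Data A R)

def V (n : ℕ) : R := VV D.ι D.y D.u D.v D.α D.β n
def c (n : ℕ) : A := cc D.σ D.x n

theorem V_zero : D.V 0 = D.ι D.y := rfl
theorem V_succ (n : ℕ) :
    D.V (n + 1) = D.ι (D.α n) * (D.u ^ n * D.v) + D.ι (D.β n) * (D.V n * D.u) := rfl
theorem c_succ (n : ℕ) : D.c (n + 1) = D.c n * (D.σ ^ n) D.x := rfl

theorem σ_succ (n : ℕ) (a : A) : (D.σ ^ (n + 1)) a = (D.σ ^ n) (D.σ a) := by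
  rw [pow_succ]; rfl

theorem σy' (n : ℕ) : (D.σ ^ n) D.y = D.y := by
  induction n with
  | zero => rfl
  | succ n ih => rw [σ_succ, D.σy, ih]

theorem σ_inj' (n : ℕ) : Function.Injective (D.σ ^ n) := by
  rw [RingHom.coe_pow]; exact D.σ_inj.iterate n

theorem comm (a b : A) : D.ι a * D.ι b = D.ι b * D.ι a := by
  rw [← map_mul, ← map_mul, mul_comm]

theorem twU (n : ℕ) (a : A) : D.u ^ n * D.ι a = D.ι ((D.σ ^ n) a) * D.u ^ n := by
  induction n generalizing a with
  | zero => simp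
  | succ n ih => rw [pow_succ, mul_assoc, D.hu, ← mul_assoc, ih, σ_succ, mul_assoc]

theorem twV (n : ℕ) (a : A) : D.V n * D.ι a = D.ι ((D.σ ^ n) a) * D.V n := by
  induction n generalizing a with
  | zero => rw [V_zero, comm]; rfl
  | succ n ih =>
    rw [V_succ, add_mul, mul_add, σ_succ]
    congr 1
    · rw [mul_assoc, mul_assoc, D.hv, ← mul_assoc (D.u ^ n), twU, ← mul_assoc, ← mul_assoc, comm]
      simp only [mul_assoc]
    · rw [mul_assoc, mul_assoc, D.hu, ← mul_assoc (D.V n), ih, ← mul_assoc, ← mul_assoc, comm]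
      simp only [mul_assoc]

theorem relU (n : ℕ) : D.ι D.y * (D.u ^ n * D.u) = D.ι ((D.σ ^ n) D.x) * (D.u ^ n * D.v) := by
  rw [← mul_assoc, ← mul_assoc, ← twU, ← D.σy' n, ← twU, mul_assoc, mul_assoc, D.rel]

theorem relV (n : ℕ) : D.ι D.y * (D.V n * D.u) = D.ι ((D.σ ^ n) D.x) * (D.V n * D.v) := by
  rw [← mul_assoc, ← mul_assoc, ← twV, ← D.σy' n, ← twV, mul_assoc, mul_assoc, D.rel]

theorem step (n : ℕ) (hn : n < D.p) (h : D.ι D.y * D.u ^ n = D.ι (D.c n) * D.V n) :
    D.u ^ n * D.v = D.ι (D.c n) * D.V (n + 1) ∧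
    D.V n * D.u = D.ι ((D.σ ^ n) D.x) * D.V (n + 1) ∧
    D.V n * D.v = D.ι D.y * D.V (n + 1) := by
  have h1 := congrArg D.ι (D.cop n hn)
  rw [map_add, map_mul, map_mul, map_one] at h1
  change D.ι (D.α n) * D.ι (D.c n) + _ = _ at h1
  have hu : D.ι D.y * (D.u ^ n * D.u) = D.ι (D.c n) * (D.V n * D.u) := by
    rw [← mul_assoc, h, mul_assoc]
  have hv : D.ι D.y * (D.u ^ n * D.v) = D.ι (D.c n) * (D.V n * D.v) := by
    rw [← mul_assoc, h, mul_assoc]
  have r1 := D.relU n
  have r2 := D.relV n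
  have sw : ∀ (a b : A) (z : R), D.ι a * (D.ι b * z) = D.ι b * (D.ι a * z) := fun a b z => by
    rw [← mul_assoc, comm, mul_assoc]
  refine ⟨?_, ?_, ?_⟩
  · rw [V_succ, mul_add, sw (D.c n) (D.α n), sw (D.c n) (D.β n), ← hu, r1, ← mul_assoc (D.ι (D.α n)),
      ← mul_assoc (D.ι (D.β n)), ← add_mul, h1, one_mul]
  · rw [V_succ, mul_add, sw _ (D.α n), sw _ (D.β n), ← r1, hu, ← mul_assoc (D.ι (D.α n)),
      ← mul_assoc (D.ι (D.β n)), ← add_mul, h1, one_mul]
  · rw [V_succ, mul_add, sw _ (D.α n), sw _ (D.β n), hv, r2, ← mul_assoc (D.ι (D.α n)),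
      ← mul_assoc (D.ι (D.β n)), ← add_mul, h1, one_mul]

theorem syzV (n : ℕ) (hn : n ≤ D.p) : D.ι D.y * D.u ^ n = D.ι (D.c n) * D.V n := by
  induction n with
  | zero => simp [V_zero, c, cc]
  | succ n ih =>
    have h := D.step n (by omega) (ih (by omega))
    rw [pow_succ, relU, h.1, c_succ, mul_comm (D.c n), map_mul, mul_assoc]

theorem φU (n : ℕ) (w : A[X]) : D.φ (D.u ^ n) w = C (D.c n) * X ^ n * w.map (D.σ ^ n) := by
  induction n generalizing w with
  | zero =>
    rw [pow_zero, D.φone, pow_zero, pow_zero]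
    simp [c, cc, RingHom.one_def]
  | succ n ih =>
    rw [pow_succ, D.φmul, D.φu, ih, c_succ, pow_succ D.σ,
      RingHom.mul_def, ← Polynomial.map_map]
    simp only [Polynomial.map_mul, map_C, map_X, map_mul]
    ring

theorem φV (n : ℕ) (hn : n ≤ D.p) (w : A[X]) :
    D.φ (D.V n) w = C D.y * X ^ n * w.map (D.σ ^ n) := by
  induction n generalizing w with
  | zero =>
    rw [V_zero, D.φι, pow_zero, pow_zero]
    simp [RingHom.one_def]
  | succ n ih =>
    have h1 := congrArg (C : A →+* A[X]) (D.cop n (by omega))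
    rw [map_add, map_mul, map_mul, map_one] at h1
    change C (D.α n) * C (D.c n) + _ = _ at h1
    rw [V_succ]
    simp only [D.φadd, D.φmul, D.φι, D.φu, D.φv, φU]
    rw [ih (by omega), pow_succ D.σ, RingHom.mul_def, ← Polynomial.map_map]
    simp only [Polynomial.map_mul, map_C, map_X, σy']
    linear_combination (C D.y * X ^ (n + 1) * Polynomial.map (D.σ ^ n) (Polynomial.map D.σ w)) * h1

/-- the homogeneous piece -/
def P (n : ℕ) (z : R) : Prop := ∃ a b : A, z = D.ι a * D.u ^ n + D.ι b * D.V n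

theorem P_zero (n : ℕ) : D.P n 0 := ⟨0, 0, by simp⟩

theorem P_add {n : ℕ} {z z' : R} (h : D.P n z) (h' : D.P n z') : D.P n (z + z') := by
  obtain ⟨a, b, rfl⟩ := h
  obtain ⟨a', b', rfl⟩ := h'
  exact ⟨a + a', b + b', by simp only [map_add]; noncomm_ring⟩

theorem P_left {n : ℕ} {z : R} (h : D.P n z) (e : A) : D.P n (D.ι e * z) := by
  obtain ⟨a, b, rfl⟩ := h
  exact ⟨e * a, e * b, by simp only [map_mul]; noncomm_ring⟩

theorem P_right {n : ℕ} {z : R} (h : D.P n z) (e : A) : D.P n (z * D.ι e) := by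
  obtain ⟨a, b, rfl⟩ := h
  exact ⟨a * (D.σ ^ n) e, b * (D.σ ^ n) e, by
    rw [add_mul, mul_assoc, mul_assoc, twU, twV, map_mul, map_mul, mul_assoc, mul_assoc]⟩

theorem P_u {n : ℕ} (hn : n < D.p) {z : R} (h : D.P n z) : D.P (n + 1) (z * D.u) := by
  obtain ⟨a, b, rfl⟩ := h
  have s := D.step n hn (D.syzV n hn.le)
  exact ⟨a, b * (D.σ ^ n) D.x, by
    rw [add_mul, mul_assoc, mul_assoc, s.2.1, map_mul, mul_assoc, pow_succ]⟩

theorem P_v {n : ℕ} (hn : n < D.p) {z : R} (h : D.P n z) : D.P (n + 1) (z * D.v) := by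
  obtain ⟨a, b, rfl⟩ := h
  have s := D.step n hn (D.syzV n hn.le)
  exact ⟨0, a * D.c n + b * D.y, by
    rw [add_mul, mul_assoc, mul_assoc, s.1, s.2.2, map_add, map_mul, map_mul, map_zero]
    noncomm_ring⟩

theorem P_one : D.P 0 1 := ⟨1, 0, by simp⟩

theorem P_φ {n : ℕ} (hn : n ≤ D.p) {z : R} (h : D.P n z) :
    ∃ g : A, (∀ w, D.φ z w = C g * X ^ n * w.map (D.σ ^ n)) ∧ (g = 0 → z = 0) := by
  obtain ⟨a, b, rfl⟩ := h
  refine ⟨a * D.c n + b * D.y, fun w => ?_, fun h0 => ?_⟩
  · simp only [D.φadd, D.φmul, D.φι, φU, D.φV n hn, map_add, map_mul]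
    ring
  · obtain ⟨e, rfl, rfl⟩ := D.syz n hn a b h0
    have := D.syzV n hn
    rw [map_neg, map_mul, map_mul, mul_assoc, this]
    change _ + -(D.ι e * D.ι (D.c n)) * _ = 0
    noncomm_ring

/-- the filtered piece -/
def S (z : R) : Prop := ∃ f : ℕ → R, (∀ n, D.P n (f n)) ∧ z = ∑ n ∈ Finset.range (D.p + 1), f n

theorem S_of_P {n : ℕ} (hn : n ≤ D.p) {z : R} (h : D.P n z) : D.S z := by
  classical
  refine ⟨fun m => if m = n then z else 0, fun m => ?_, ?_⟩
  · by_cases hm : m = n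
    · simp only [hm, if_true]; exact h
    · simp only [hm, if_false]; exact D.P_zero m
  · rw [Finset.sum_ite_eq' , if_pos (Finset.mem_range.2 (by omega))]

theorem S_zero : D.S 0 := D.S_of_P (Nat.zero_le _) (D.P_zero 0)

theorem S_add {z z' : R} (h : D.S z) (h' : D.S z') : D.S (z + z') := by
  obtain ⟨f, hf, rfl⟩ := h
  obtain ⟨f', hf', rfl⟩ := h'
  exact ⟨fun n => f n + f' n, fun n => D.P_add (hf n) (hf' n), Finset.sum_add_distrib.symm⟩

theorem S_left {z : R} (h : D.S z) (e : A) : D.S (D.ι e * z) := by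
  obtain ⟨f, hf, rfl⟩ := h
  exact ⟨fun n => D.ι e * f n, fun n => D.P_left (hf n) e, Finset.mul_sum _ _ _⟩

theorem φsum (s : Finset ℕ) (f : ℕ → R) (w : A[X]) :
    D.φ (∑ n ∈ s, f n) w = ∑ n ∈ s, D.φ (f n) w := by
  classical
  induction s using Finset.induction_on with
  | empty => simp [D.φzero]
  | insert a s ha ih => rw [Finset.sum_insert ha, Finset.sum_insert ha, D.φadd, ih]

theorem S_inj [IsDomain A] {z : R} (h : D.S z) (hz : z ≠ 0) (w : A[X]) (hw : w ≠ 0) :
    D.φ z w ≠ 0 := by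
  classical
  obtain ⟨f, hf, rfl⟩ := h
  have hg : ∀ n, ∃ g : A, n ≤ D.p →
      (∀ w, D.φ (f n) w = C g * X ^ n * w.map (D.σ ^ n)) ∧ (g = 0 → f n = 0) := fun n => by
    by_cases hn : n ≤ D.p
    · obtain ⟨g, hg⟩ := D.P_φ hn (hf n)
      exact ⟨g, fun _ => hg⟩
    · exact ⟨0, fun h => absurd h hn⟩
  choose g hg using hg
  have hne : ((Finset.range (D.p + 1)).filter (fun n => g n ≠ 0)).Nonempty := by
    by_contra hcon
    apply hz
    refine Finset.sum_eq_zero fun n hn => ?_
    have hn' : n ≤ D.p := by have := Finset.mem_range.1 hn; omega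
    apply (hg n hn').2
    by_contra h0
    exact hcon ⟨n, Finset.mem_filter.2 ⟨hn, h0⟩⟩
  set m := ((Finset.range (D.p + 1)).filter (fun n => g n ≠ 0)).max' hne with hm
  have hmem := Finset.mem_filter.1 (Finset.max'_mem _ hne)
  rw [← hm] at hmem
  intro h0
  rw [φsum] at h0
  have hc := congrArg (fun q : A[X] => q.coeff (w.natDegree + m)) h0
  simp only [finsetSum_coeff, coeff_zero] at hc
  rw [Finset.sum_eq_single m] at hc
  · have hm' : m ≤ D.p := by have := Finset.mem_range.1 hmem.1; omega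
    rw [(hg m hm').1, mul_assoc, coeff_C_mul, coeff_X_pow_mul, coeff_map, coeff_natDegree] at hc
    rcases mul_eq_zero.1 hc with h1 | h1
    · exact hmem.2 h1
    · exact leadingCoeff_ne_zero.2 hw (D.σ_inj' m (by rw [h1, map_zero]))
  · intro b hb hbm
    have hb' : b ≤ D.p := by have := Finset.mem_range.1 hb; omega
    rw [(hg b hb').1]
    by_cases h1 : g b = 0
    · rw [h1]; simp
    · have hle : b ≤ m := Finset.le_max' _ b (Finset.mem_filter.2 ⟨hb, h1⟩)
      have hlt : b < m := lt_of_le_of_ne hle hbm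
      obtain ⟨d, hd⟩ : ∃ d, w.natDegree + m = d + b ∧ w.natDegree < d :=
        ⟨w.natDegree + m - b, by omega, by omega⟩
      rw [hd.1, mul_assoc, coeff_C_mul, coeff_X_pow_mul, coeff_map,
        coeff_eq_zero_of_natDegree_lt hd.2, map_zero, mul_zero]
  · intro h; exact absurd hmem.1 h

theorem nzd [IsDomain A] {z z' : R} (h : D.S z) (h' : D.S z') (hz : z ≠ 0) (hz' : z' ≠ 0) :
    z * z' ≠ 0 := by
  intro h0
  have h1 := D.S_inj h hz _ (D.S_inj h' hz' 1 one_ne_zero)
  apply h1
  rw [← D.φmul, h0, D.φzero]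

theorem zd (q : ℕ) (hq : (D.σ ^ (q + 1)) D.x = D.x) :
    D.ι D.y * (D.u ^ (q + 1) * D.v - D.v * D.u ^ (q + 1)) = 0 := by
  have e1 : D.ι D.y * (D.u ^ (q + 1) * D.v) = D.ι D.x * (D.v * (D.u ^ q * D.v)) := by
    rw [pow_succ', mul_assoc, ← mul_assoc, D.rel, mul_assoc]
  have e2 : D.ι D.y * (D.v * D.u ^ (q + 1)) = D.ι D.x * (D.v * (D.u ^ q * D.v)) := by
    have : D.ι D.y * D.v = D.v * D.ι D.y := by rw [D.hv, D.σy]
    rw [← mul_assoc, this, mul_assoc, pow_succ, relU, ← mul_assoc, D.hv, mul_assoc]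
    congr 2
    rw [pow_succ'] at hq
    exact hq
  rw [mul_sub, e1, e2, sub_self]

end Data
end Abs

section Conc
variable (k : Type) [Field k]

abbrev F : Type := FreeAlgebra k (Fin 4)
abbrev A : Type := k[X][X]

noncomputable def g (i : Fin 4) : F k := FreeAlgebra.ι k i

noncomputable def rels : Fin 6 → F k :=
  ![g k 0 * g k 1 - g k 1 * g k 0, g k 2 * g k 1 - g k 1 * g k 2, g k 3 * g k 1 - g k 1 * g k 3,
    g k 2 * g k 0 - (g k 0 * g k 2 + g k 2), g k 3 * g k 0 - (g k 0 * g k 3 + g k 3),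
    g k 1 * g k 2 - g k 0 * g k 3]

noncomputable def J : TwoSidedIdeal (F k) := TwoSidedIdeal.span (Set.range (rels k))

noncomputable abbrev R : Type := (J k).ringCon.Quotient

noncomputable def π : F k →ₐ[k] R k := RingCon.mkₐ k (J k).ringCon

theorem π_eq (a b : F k) : π k a = π k b ↔ a - b ∈ J k := by
  rw [← TwoSidedIdeal.rel_iff]
  exact RingCon.eq _

theorem π_zero (a : F k) : π k a = 0 ↔ a ∈ J k := by
  rw [← map_zero (π k), π_eq, sub_zero]

theorem rel_mem (i : Fin 6) : rels k i ∈ J k := TwoSidedIdeal.subset_span ⟨i, rfl⟩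

variable {k} in
theorem kill {M : Type} [AddCommGroup M] [Module k M] (ψ : F k →ₐ[k] Module.End k M)
    (h : ∀ i, ψ (rels k i) = 0)
    (a : F k) (ha : a ∈ J k) : ψ a = 0 := by
  have : J k ≤ TwoSidedIdeal.ker ψ := by
    rw [J, TwoSidedIdeal.span_le]
    rintro _ ⟨i, rfl⟩
    exact (TwoSidedIdeal.mem_ker ψ).2 (h i)
  exact (TwoSidedIdeal.mem_ker ψ).1 (this ha)

theorem r0 : π k (g k 0) * π k (g k 1) = π k (g k 1) * π k (g k 0) := by
  rw [← map_mul, ← map_mul, π_eq]; exact rel_mem k 0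
theorem r1 : π k (g k 2) * π k (g k 1) = π k (g k 1) * π k (g k 2) := by
  rw [← map_mul, ← map_mul, π_eq]; exact rel_mem k 1
theorem r2 : π k (g k 3) * π k (g k 1) = π k (g k 1) * π k (g k 3) := by
  rw [← map_mul, ← map_mul, π_eq]; exact rel_mem k 2
theorem r3 : π k (g k 2) * π k (g k 0) = π k (g k 0) * π k (g k 2) + π k (g k 2) := by
  rw [← map_mul, ← map_mul, ← map_add, π_eq]; exact rel_mem k 3
theorem r4 : π k (g k 3) * π k (g k 0) = π k (g k 0) * π k (g k 3) + π k (g k 3) := by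
  rw [← map_mul, ← map_mul, ← map_add, π_eq]; exact rel_mem k 4
theorem r5 : π k (g k 1) * π k (g k 2) = π k (g k 0) * π k (g k 3) := by
  rw [← map_mul, ← map_mul, π_eq]; exact rel_mem k 5

variable {k} in
theorem indA {Q : A k → Prop} (hc : ∀ c : k, Q (algebraMap k _ c)) (hx : Q (C X)) (hy : Q X)
    (hadd : ∀ a b, Q a → Q b → Q (a + b)) (hmul : ∀ a b, Q a → Q b → Q (a * b)) (a : A k) :
    Q a := by
  have h1 : ∀ b : k[X], Q (C b) := by
    intro b
    induction b using Polynomial.induction_on with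
    | C c => exact hc c
    | add p q hp hq => rw [map_add]; exact hadd _ _ hp hq
    | monomial n c h => rw [pow_succ, ← mul_assoc, map_mul]; exact hmul _ _ h hx
  induction a using Polynomial.induction_on with
  | C c => exact h1 c
  | add p q hp hq => exact hadd _ _ hp hq
  | monomial n c h => rw [pow_succ, ← mul_assoc]; exact hmul _ _ h hy

noncomputable def ι : A k →ₐ[k] R k :=
  eval₂AlgHom (aeval (π k (g k 0))) (π k (g k 1)) (fun a => by
    induction a using Polynomial.induction_on with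
    | C c => rw [aeval_C]; exact Algebra.commutes c _
    | add p q hp hq => rw [map_add]; exact hp.add_left hq
    | monomial n c h =>
      rw [pow_succ, ← mul_assoc, map_mul, aeval_X]; exact h.mul_left (r0 k))

theorem ιx : ι k (C X) = π k (g k 0) := by simp [ι]
theorem ιy : ι k X = π k (g k 1) := by simp [ι]

noncomputable def σ : A k →ₐ[k] A k := mapAlgHom (taylorAlgHom (1 : k))

theorem σx : σ k (C X) = C X + 1 := by simp [σ]
theorem σy : σ k X = X := by simp [σ]
theorem σ_inj : Function.Injective (σ k) :=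
  Polynomial.map_injective _ (taylor_injective (1 : k))

theorem σn (n : ℕ) : ((σ k : A k →+* A k) ^ n) (C X) = C (X + (n : k[X])) := by
  induction n with
  | zero => simp
  | succ n ih =>
    rw [pow_succ, RingHom.mul_def, RingHom.comp_apply, RingHom.coe_coe, σx, map_add, ih, map_one]
    push_cast
    rw [← add_assoc, map_add (C : k[X] →+* A k) _ 1, map_one]

theorem tw (u : R k) (h1 : u * π k (g k 0) = π k (g k 0) * u + u)
    (h2 : u * π k (g k 1) = π k (g k 1) * u) (a : A k) : u * ι k a = ι k (σ k a) * u := by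
  induction a using indA with
  | hc c => rw [AlgHom.commutes, AlgHom.commutes, AlgHom.commutes]; exact (Algebra.commutes c u).symm
  | hx => rw [σx, map_add, map_one, ιx, h1, add_mul, one_mul]
  | hy => rw [σy, ιy, h2]
  | hadd a b ha hb => rw [map_add, map_add, map_add, mul_add, add_mul, ha, hb]
  | hmul a b ha hb => rw [map_mul, map_mul, map_mul, ← mul_assoc, ha, mul_assoc, hb, mul_assoc]

noncomputable def T : Module.End k (A k)[X] :=
  LinearMap.mulLeft k X ∘ₗ (mapAlgHom (σ k)).toLinearMap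

theorem T_apply (w : (A k)[X]) : T k w = X * w.map (σ k : A k →+* A k) := rfl

noncomputable def φ0 : F k →ₐ[k] Module.End k (A k)[X] := FreeAlgebra.lift k
  ![LinearMap.mulLeft k (C (C X)), LinearMap.mulLeft k (C X),
    LinearMap.mulLeft k (C (C X)) * T k, LinearMap.mulLeft k (C X) * T k]

theorem φ00 (w) : φ0 k (g k 0) w = C (C X) * w := by simp [φ0, g]
theorem φ01 (w) : φ0 k (g k 1) w = C X * w := by simp [φ0, g]
theorem φ02 (w) : φ0 k (g k 2) w = C (C X) * X * w.map (σ k : A k →+* A k) := by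
  simp [φ0, g, T_apply, mul_assoc]
theorem φ03 (w) : φ0 k (g k 3) w = C X * X * w.map (σ k : A k →+* A k) := by
  simp [φ0, g, T_apply, mul_assoc]

variable {k} in
theorem rels_of {M : Type} [AddCommGroup M] [Module k M] (ψ : F k →ₐ[k] Module.End k M)
    (h0 : ψ (g k 0) * ψ (g k 1) = ψ (g k 1) * ψ (g k 0))
    (h1 : ψ (g k 2) * ψ (g k 1) = ψ (g k 1) * ψ (g k 2))
    (h2 : ψ (g k 3) * ψ (g k 1) = ψ (g k 1) * ψ (g k 3))
    (h3 : ψ (g k 2) * ψ (g k 0) = ψ (g k 0) * ψ (g k 2) + ψ (g k 2))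
    (h4 : ψ (g k 3) * ψ (g k 0) = ψ (g k 0) * ψ (g k 3) + ψ (g k 3))
    (h5 : ψ (g k 1) * ψ (g k 2) = ψ (g k 0) * ψ (g k 3)) (i : Fin 6) : ψ (rels k i) = 0 := by
  fin_cases i <;>
    simp only [rels, Fin.zero_eta, Fin.mk_one, Fin.reduceFinMk, Matrix.cons_val_zero,
      Matrix.cons_val_one, Matrix.cons_val, map_sub, map_add, map_mul, sub_eq_zero] <;>
    assumption

theorem φ0_rels (i : Fin 6) : φ0 k (rels k i) = 0 := by
  refine rels_of (M := (A k)[X]) (φ0 k) ?_ ?_ ?_ ?_ ?_ ?_ i <;>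
  · refine LinearMap.ext fun w => ?_
    simp only [LinearMap.add_apply, Module.End.mul_apply, φ00, φ01, φ02, φ03,
      Polynomial.map_mul, map_C, RingHom.coe_coe, σx, σy, map_one, map_add]
    ring

noncomputable def φ1 : R k →ₐ[k] Module.End k (A k)[X] :=
  RingCon.liftₐ _ (φ0 k) (fun a b h => by
    have := kill (M := (A k)[X]) (φ0 k) (φ0_rels k) _ (((J k).rel_iff a b).1 h)
    have e : φ0 k a = φ0 k (a - b) + φ0 k b := by rw [← map_add, sub_add_cancel]
    rw [this, zero_add] at e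
    exact e)

theorem φ1π (a : F k) : φ1 k (π k a) = φ0 k a := rfl

theorem φ1ι (a : A k) : ∀ w, φ1 k (ι k a) w = C a * w := by
  induction a using indA with
  | hc c =>
    intro w
    rw [AlgHom.commutes, AlgHom.commutes, Module.algebraMap_end_apply, Algebra.smul_def]
    rfl
  | hx => intro w; rw [ιx, φ1π, φ00]
  | hy => intro w; rw [ιy, φ1π, φ01]
  | hadd a b ha hb => intro w; rw [map_add, map_add, LinearMap.add_apply, ha, hb, map_add, add_mul]
  | hmul a b ha hb =>
    intro w; rw [map_mul, map_mul, Module.End.mul_apply, ha, hb, map_mul, mul_assoc]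

/-- the translates as one-variable polynomials -/
noncomputable def c1 : ℕ → k[X]
  | 0 => 1
  | n + 1 => c1 n * (X + (n : k[X]))

theorem cc_eq (n : ℕ) : cc (σ k : A k →+* A k) (C X) n = C (c1 k n) := by
  induction n with
  | zero => simp [cc, c1]
  | succ n ih => rw [cc, ih, σn, c1, map_mul]

theorem c1_ne (n : ℕ) : c1 k n ≠ 0 := by
  induction n with
  | zero => simp [c1]
  | succ n ih =>
    rw [c1]
    refine mul_ne_zero ih ?_
    rw [← C_eq_natCast]
    exact X_add_C_ne_zero _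

theorem cop1 (p : ℕ) [CharP k p] (n : ℕ) (hn : n < p) (m : ℕ) (hm : m ≤ n) :
    IsCoprime (c1 k m) (X + (n : k[X])) := by
  induction m with
  | zero => exact isCoprime_one_left
  | succ m ih =>
    rw [c1]
    refine (ih (by omega)).mul_left ?_
    have hne : ((m : k) - n) ≠ 0 := by
      intro h
      have := CharP.natCast_injOn_Iio k p (Set.mem_Iio.2 (by omega : m < p)) (Set.mem_Iio.2 hn)
        (sub_eq_zero.1 h)
      omega
    refine ⟨C ((m : k) - n)⁻¹, -C ((m : k) - n)⁻¹, ?_⟩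
    have e : C ((m : k) - n)⁻¹ * C ((m : k) - n) = 1 := by
      rw [← map_mul, inv_mul_cancel₀ hne, map_one]
    rw [map_sub, C_eq_natCast, C_eq_natCast] at e
    linear_combination e

theorem exD (p : ℕ) [CharP k p] : ∃ D : Data (A k) (R k), D.p = p ∧ D.ι = ι k ∧
    D.σ = σ k ∧ D.x = C X ∧ D.y = X ∧ D.u = π k (g k 2) ∧ D.v = π k (g k 3) := by
  have h : ∀ n, ∃ a b : A k, n < p →
      a * cc (σ k : A k →+* A k) (C X) n + b * ((σ k : A k →+* A k) ^ n) (C X) = 1 := by
    intro n
    by_cases hn : n < p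
    · obtain ⟨a, b, hab⟩ := cop1 k p n hn n le_rfl
      refine ⟨C a, C b, fun _ => ?_⟩
      rw [cc_eq, σn, ← map_mul, ← map_mul, ← map_add, hab, map_one]
    · exact ⟨0, 0, fun h => absurd h hn⟩
  choose α β hαβ using h
  refine ⟨{ p := p, ι := ι k, σ := σ k, x := C X, y := X, u := π k (g k 2), v := π k (g k 3)
            α := α, β := β, φ := fun z w => φ1 k z w
            φmul := fun a b w => by rw [map_mul]; rfl
            φadd := fun a b w => by rw [map_add]; rfl
            φzero := fun w => by rw [map_zero]; rfl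
            φone := fun w => by rw [map_one]; rfl
            σ_inj := σ_inj k, σy := σy k
            hu := tw k _ (r3 k) (r1 k), hv := tw k _ (r4 k) (r2 k)
            rel := by
              show ι k X * _ = ι k (C X) * _
              rw [ιx, ιy, r5]
            cop := hαβ
            syz := fun n _ a b hab => ?_
            φι := φ1ι k
            φu := fun w => by rw [φ1π, φ02]
            φv := fun w => by rw [φ1π, φ03] }, rfl, rfl, rfl, rfl, rfl, rfl, rfl⟩
  rw [cc_eq] at hab ⊢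
  have h0 := congrArg (fun q : A k => q.coeff 0) hab
  simp only [coeff_add, coeff_mul_C, coeff_mul_X_zero, add_zero, coeff_zero] at h0
  have h1 : a.coeff 0 = 0 := (mul_eq_zero.1 h0).resolve_right (c1_ne k n)
  obtain ⟨e, rfl⟩ := X_dvd_iff.2 h1
  refine ⟨e, mul_comm _ _, ?_⟩
  apply mul_left_cancel₀ (X_ne_zero (R := k[X]))
  linear_combination hab

theorem low (p : ℕ) [CharP k p] (N : ℕ) (hN : N ≤ p) (a b : F k)
    (ha : a ∈ Submodule.span k {a : F k | ∃ w : FreeMonoid (Fin 4),
            w.length < N ∧ a = (w.toList.map (FreeAlgebra.ι k)).prod})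
    (hb : b ∈ Submodule.span k {a : F k | ∃ w : FreeMonoid (Fin 4),
            w.length < N ∧ a = (w.toList.map (FreeAlgebra.ι k)).prod})
    (ha0 : a ∉ J k) (hb0 : b ∉ J k) : a * b ∉ J k := by
  obtain ⟨D, hp, hι, hσ, hx, hy, hu, hv⟩ := exD k p
  have word : ∀ l : List (Fin 4), l.length ≤ p →
      ∃ n ≤ l.length, D.P n (π k (l.map (FreeAlgebra.ι k)).prod) := by
    intro l
    induction l using List.reverseRecOn with
    | nil => intro _; exact ⟨0, le_rfl, by simpa using D.P_one⟩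
    | append_singleton l i ih =>
      intro hl
      rw [List.length_append, List.length_singleton] at hl ⊢
      obtain ⟨n, hn, hP⟩ := ih (by omega)
      rw [List.map_append, List.prod_append, map_mul]
      simp only [List.map_cons, List.map_nil, List.prod_cons, List.prod_nil, mul_one]
      fin_cases i
      · refine ⟨n, by omega, ?_⟩
        have := D.P_right hP (C X)
        rw [hι] at this
        change D.P n (_ * ι k (C X)) at this
        rw [ιx] at this
        exact this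
      · refine ⟨n, by omega, ?_⟩
        have := D.P_right hP X
        rw [hι] at this
        change D.P n (_ * ι k X) at this
        rw [ιy] at this
        exact this
      · refine ⟨n + 1, by omega, ?_⟩
        have := D.P_u (by omega) hP
        rw [hu] at this
        exact this
      · refine ⟨n + 1, by omega, ?_⟩
        have := D.P_v (by omega) hP
        rw [hv] at this
        exact this
  have sp : ∀ a ∈ Submodule.span k {a : F k | ∃ w : FreeMonoid (Fin 4),
            w.length < N ∧ a = (w.toList.map (FreeAlgebra.ι k)).prod}, D.S (π k a) := by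
    intro a ha
    induction ha using Submodule.span_induction with
    | mem a h =>
      obtain ⟨w, hw, rfl⟩ := h
      have hw' : w.toList.length ≤ p := by
        have : w.toList.length = w.length := rfl
        omega
      obtain ⟨n, hn, hP⟩ := word w.toList hw'
      exact D.S_of_P (by omega) hP
    | zero => rw [map_zero]; exact D.S_zero
    | add a b _ _ ha hb => rw [map_add]; exact D.S_add ha hb
    | smul c a _ ha =>
      have := D.S_left ha (algebraMap k _ c)
      rw [hι] at this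
      change D.S (ι k (algebraMap k _ c) * _) at this
      rw [AlgHom.commutes, ← Algebra.smul_def, ← map_smul] at this
      exact this
  rw [← π_zero] at ha0 hb0 ⊢
  rw [map_mul]
  exact D.nzd (sp a ha) (sp b hb) ha0 hb0

theorem zdJ (q : ℕ) [CharP k (q + 1)] :
    g k 1 * (g k 2 ^ (q + 1) * g k 3 - g k 3 * g k 2 ^ (q + 1)) ∈ J k := by
  obtain ⟨D, hp, hι, hσ, hx, hy, hu, hv⟩ := exD k (q + 1)
  have := D.zd q (by
    rw [hσ, hx, σn, CharP.cast_eq_zero, add_zero])
  rw [hι, hy, hu, hv] at this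
  change ι k X * _ = 0 at this
  rw [ιy] at this
  rw [← π_zero]
  simpa only [map_mul, map_sub, map_pow] using this

theorem g1_not : g k 1 ∉ J k := fun h => by
  have := kill (M := (A k)[X]) (φ0 k) (φ0_rels k) _ h
  have h2 := φ01 k 1
  rw [this] at h2
  simp only [LinearMap.zero_apply, mul_one] at h2
  exact X_ne_zero (C_eq_zero.1 h2.symm)

noncomputable def oH : Module.End k (k → k × k) where
  toFun f := fun i => i • f i
  map_add' f f' := by ext i <;> simp
  map_smul' c f := by ext i <;> simp [mul_left_comm]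

noncomputable def oU : Module.End k (k → k × k) where
  toFun f := fun i => ((f (i + 1)).1, 0)
  map_add' f f' := by ext i <;> simp
  map_smul' c f := by ext i <;> simp

open Classical in
noncomputable def oV : Module.End k (k → k × k) where
  toFun f := fun i => if i = 0 then ((f 1).2, 0) else 0
  map_add' f f' := by ext i <;> by_cases h : i = 0 <;> simp [h]
  map_smul' c f := by ext i <;> by_cases h : i = 0 <;> simp [h]

noncomputable def ψ : F k →ₐ[k] Module.End k (k → k × k) :=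
  FreeAlgebra.lift k ![oH k, 0, oU k, oV k]

theorem ψ0 : ψ k (g k 0) = oH k := by simp [ψ, g]
theorem ψ1 : ψ k (g k 1) = 0 := by simp [ψ, g]
theorem ψ2 : ψ k (g k 2) = oU k := by simp [ψ, g]
theorem ψ3 : ψ k (g k 3) = oV k := by simp [ψ, g]

theorem ψ_rels (i : Fin 6) : ψ k (rels k i) = 0 := by
  refine rels_of (ψ k) ?_ ?_ ?_ ?_ ?_ ?_ i <;> simp only [ψ0, ψ1, ψ2, ψ3, mul_zero, zero_mul]
  · ext f i <;> simp [oU, oH, add_mul]
  · ext f i <;> by_cases h : i = 0 <;> simp [oV, oH, h]
  · ext f i <;> by_cases h : i = 0 <;> simp [oV, oH, h]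

theorem oU_pow (n : ℕ) (f : k → k × k) (i : k) :
    (oU k ^ (n + 1)) f i = ((f (i + (n + 1 : ℕ))).1, 0) := by
  induction n generalizing i with
  | zero => simp [oU]
  | succ n ih =>
    rw [pow_succ', Module.End.mul_apply]
    show ((((oU k ^ (n + 1)) f) (i + 1)).1, 0) = _
    have e : i + 1 + ((n + 1 : ℕ) : k) = i + ((n + 1 + 1 : ℕ) : k) := by push_cast; ring
    rw [ih, e]

theorem w_not (q : ℕ) [CharP k (q + 1)] :
    g k 2 ^ (q + 1) * g k 3 - g k 3 * g k 2 ^ (q + 1) ∉ J k := fun h => by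
  have := kill (ψ k) (ψ_rels k) _ h
  rw [map_sub, map_mul, map_mul, map_pow, ψ2, ψ3, sub_eq_zero] at this
  have h2 := congrArg (fun L : Module.End k (k → k × k) => (L (fun _ => (0, 1)) 0).1) this
  simp only [Module.End.mul_apply] at h2
  rw [oU_pow, CharP.cast_eq_zero] at h2
  simp [oV, oU_pow] at h2

theorem deg (i : Fin 6) : rels k i ∈ Submodule.span k
    {a : F k | ∃ w : FreeMonoid (Fin 4),
      w.length ≤ 2 ∧ a = (w.toList.map (FreeAlgebra.ι k)).prod} := by
  have h1 : ∀ i, g k i ∈ Submodule.span k {a : F k | ∃ w : FreeMonoid (Fin 4),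
      w.length ≤ 2 ∧ a = (w.toList.map (FreeAlgebra.ι k)).prod} := fun i =>
    Submodule.subset_span ⟨FreeMonoid.ofList [i], by show 1 ≤ 2; omega, by simp [g]⟩
  have h2 : ∀ i j, g k i * g k j ∈ Submodule.span k {a : F k | ∃ w : FreeMonoid (Fin 4),
      w.length ≤ 2 ∧ a = (w.toList.map (FreeAlgebra.ι k)).prod} := fun i j =>
    Submodule.subset_span ⟨FreeMonoid.ofList [i, j], by show 2 ≤ 2; omega, by simp [g]⟩
  fin_cases i
  · exact Submodule.sub_mem _ (h2 _ _) (h2 _ _)
  · exact Submodule.sub_mem _ (h2 _ _) (h2 _ _)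
  · exact Submodule.sub_mem _ (h2 _ _) (h2 _ _)
  · exact Submodule.sub_mem _ (h2 _ _) (Submodule.add_mem _ (h2 _ _) (h1 _))
  · exact Submodule.sub_mem _ (h2 _ _) (Submodule.add_mem _ (h2 _ _) (h1 _))
  · exact Submodule.sub_mem _ (h2 _ _) (h2 _ _)

end Conc

end Pool.Agent.H.MP_bcc032_al
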